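import Mathlib
import Pool.Agent.LibOT.Geom2

/-!
The number of convex hull vertices increases strictly along the geometric homomorphism order
of the realizations of a complete graph.
-/

namespace Pool.Agent.Results.MP_1038e0_co.HullStrict

open Pool.Agent.LibOT

/-- A straight-line drawing of the complete graph on `Fin n`: vertex `i` is drawn at `p i`.
The points are pairwise distinct and no three of them are collinear. -/
def IsDrawing {n : ℕ} (p : Fin n → ℝ × ℝ) : Prop :=
  Function.Injective p ∧
    ∀ i j k : Fin n, i ≠ j → i ≠ k → j ≠ k → ¬ Collinear ℝ ({p i, p j, p k} : Set (ℝ × ℝ))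

/-- The edges `a b` and `c d` of the drawn complete graph cross: they are two different edges and
their segments meet at a point which is not (the position of) a shared end point. -/
def Crosses {n : ℕ} (p : Fin n → ℝ × ℝ) (a b c d : Fin n) : Prop :=
  a ≠ b ∧ c ≠ d ∧ s(a, b) ≠ s(c, d) ∧
    ∃ x : ℝ × ℝ, x ∈ segment ℝ (p a) (p b) ∧ x ∈ segment ℝ (p c) (p d) ∧
      ∀ v : Fin n, v ∈ s(a, b) → v ∈ s(c, d) → x ≠ p v

/-- Geometric homomorphisms between two drawings of complete graphs: edges go to edges and
crossing pairs of edges go to crossing pairs of edges. -/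
def IsGeomHom {n m : ℕ} (p : Fin n → ℝ × ℝ) (q : Fin m → ℝ × ℝ) (f : Fin n → Fin m) : Prop :=
  (∀ u v : Fin n, u ≠ v → f u ≠ f v) ∧
    ∀ x y u v : Fin n, Crosses p x y u v → Crosses q (f x) (f y) (f u) (f v)

/-- Geometric isomorphisms: bijections for which both implications are equivalences. -/
def IsGeomIso {n m : ℕ} (p : Fin n → ℝ × ℝ) (q : Fin m → ℝ × ℝ) (f : Fin n → Fin m) : Prop :=
  Function.Bijective f ∧ (∀ u v : Fin n, u ≠ v ↔ f u ≠ f v) ∧
    ∀ x y u v : Fin n, Crosses p x y u v ↔ Crosses q (f x) (f y) (f u) (f v)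

/-- The order: a vertex-injective geometric homomorphism from `p` to `q`. -/
def Below {n : ℕ} (p q : Fin n → ℝ × ℝ) : Prop :=
  ∃ f : Fin n → Fin n, Function.Injective f ∧ IsGeomHom p q f

/-- The strict order: `Below`, and not geometrically isomorphic. -/
def StrictlyBelow {n : ℕ} (p q : Fin n → ℝ × ℝ) : Prop :=
  Below p q ∧ ¬ ∃ f : Fin n → Fin n, IsGeomIso p q f

/-- The number of vertices of the drawing which are vertices (extreme points) of the convex hull
of the vertex set. -/
noncomputable def hullNumber {n : ℕ} (p : Fin n → ℝ × ℝ) : ℕ :=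
  {i : Fin n | p i ∈ (convexHull ℝ (Set.range p)).extremePoints ℝ}.ncard

theorem gen_of {n : ℕ} {p : Fin n → ℝ × ℝ} (hp : IsDrawing p) : Gen p :=
  fun i j k h1 h2 h3 => D_ne_zero (hp.2 i j k h1 h2 h3)

theorem ncard_filter {V : Type} [Fintype V] (K : V → Prop) [DecidablePred K] :
    {i : V | K i}.ncard = (Finset.univ.filter K).card := by
  rw [← Set.ncard_coe_finset]
  congr 1
  ext i
  simp

theorem crosses_iff {n : ℕ} {p : Fin n → ℝ × ℝ} (hp : Gen p) (a b c d : Fin n) :
    Crosses p a b c d ↔ (a ≠ b ∧ a ≠ c ∧ a ≠ d ∧ b ≠ c ∧ b ≠ d ∧ c ≠ d) ∧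
      (chirOf p hp).cr a b c d := by
  constructor
  · rintro ⟨hab, hcd, hne, x, hx1, hx2, hx3⟩
    have hac : a ≠ c := by
      rintro rfl
      have hbd : b ≠ d := by rintro rfl; exact hne rfl
      exact hx3 a (by simp) (by simp) (share_end (hp a d b hcd hab hbd.symm) hx1 hx2)
    have had : a ≠ d := by
      rintro rfl
      have hbc : b ≠ c := by rintro rfl; exact hne Sym2.eq_swap
      rw [segment_symm] at hx2
      exact hx3 a (by simp) (by simp) (share_end (hp a c b hac hab hbc.symm) hx1 hx2)
    have hbc : b ≠ c := by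
      rintro rfl
      rw [segment_symm] at hx1
      exact hx3 b (by simp) (by simp) (share_end (hp b d a hcd hab.symm had.symm) hx1 hx2)
    have hbd : b ≠ d := by
      rintro rfl
      rw [segment_symm] at hx1 hx2
      exact hx3 b (by simp) (by simp) (share_end (hp b c a hbc hab.symm hac.symm) hx1 hx2)
    refine ⟨⟨hab, hac, had, hbc, hbd, hcd⟩, ?_, ?_⟩
    · rw [chirOf_s, chirOf_s]
      exact signs_of_cross hx2 hx1 (hp a b c hab hac hbc) (hp a b d hab had hbd)
    · rw [chirOf_s, chirOf_s]
      exact signs_of_cross hx1 hx2 (hp c d a hcd hac.symm had.symm) (hp c d b hcd hbc.symm hbd.symm)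
  · rintro ⟨⟨hab, hac, had, hbc, hbd, hcd⟩, h1, h2⟩
    refine ⟨hab, hcd, ?_, ?_⟩
    · intro h
      rw [Sym2.eq_iff] at h
      rcases h with h | h
      · exact hac h.1
      · exact had h.1
    · have neg : ∀ {x y : ℝ}, x ≠ 0 → y ≠ 0 → decide (0 < x) ≠ decide (0 < y) → x * y < 0 := by
        intro x y hx hy h
        rw [Ne, dec_eq_iff hx hy] at h
        rcases lt_or_gt_of_ne (mul_ne_zero hx hy) with k | k
        · exact k
        · exact absurd k h
      rw [chirOf_s, chirOf_s] at h1 h2
      obtain ⟨x, hx1, hx2⟩ := cross_of_signs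
        (neg (hp a b c hab hac hbc) (hp a b d hab had hbd) h1)
        (neg (hp c d a hcd hac.symm had.symm) (hp c d b hcd hbc.symm hbd.symm) h2)
      refine ⟨x, hx1, hx2, ?_⟩
      intro v hv1 hv2
      rw [Sym2.mem_iff] at hv1 hv2
      exfalso
      rcases hv1 with rfl | rfl <;> rcases hv2 with h | h
      · exact hac h
      · exact had h
      · exact hbc h
      · exact hbd h

/-- Let `p` and `q` be straight-line drawings of the complete graph on `n` vertices, no three
vertices collinear, with `p` strictly below `q` in the geometric homomorphism order. Then the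
convex hull of `q` has strictly more vertices than the convex hull of `p`. -/
theorem result : ∀ (n : ℕ) (p q : Fin n → ℝ × ℝ), IsDrawing p → IsDrawing q →
    StrictlyBelow p q → hullNumber p < hullNumber q := by
  intro n p q hp hq hpq
  obtain ⟨⟨f, hf, hhom⟩, hiso⟩ := hpq
  by_contra hcon
  push Not at hcon
  apply hiso
  have hbij : Function.Bijective f := Finite.injective_iff_bijective.mp hf
  have gp := gen_of hp
  have gq := gen_of hq
  have gq' : Gen (q ∘ f) := fun i j k h1 h2 h3 =>
    gq (f i) (f j) (f k) (hf.ne h1) (hf.ne h2) (hf.ne h3)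
  have hrange : Set.range (q ∘ f) = Set.range q := by
    rw [Set.range_comp, hbij.surjective.range_eq, Set.image_univ]
  have hnum : hullNumber (q ∘ f) = hullNumber q := by
    unfold hullNumber
    rw [hrange]
    have : {i : Fin n | (q ∘ f) i ∈ (convexHull ℝ (Set.range q)).extremePoints ℝ} =
        f ⁻¹' {i : Fin n | q i ∈ (convexHull ℝ (Set.range q)).extremePoints ℝ} := rfl
    rw [this]
    exact Set.ncard_preimage_of_injective_subset_range hf (by
      rw [hbij.surjective.range_eq]; exact Set.subset_univ _)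
  have hC : Cont (chirOf p gp) (chirOf (q ∘ f) gq') := by
    apply Cont.of_cr
    intro a b c d h1 h2 h3 h4 h5 h6 hcr
    have := hhom.2 a b c d ((crosses_iff gp a b c d).mpr ⟨⟨h1, h2, h3, h4, h5, h6⟩, hcr⟩)
    exact ((crosses_iff gq _ _ _ _).mp this).2
  have hback := core (hullData gp) (hullData gq') hC (by
    rw [← ncard_filter, ← ncard_filter]
    rw [← hnum] at hcon
    exact hcon)
  refine ⟨f, hbij, fun u v => ⟨hhom.1 u v, fun h h' => h (congrArg f h')⟩, ?_⟩
  intro x y u v
  refine ⟨hhom.2 x y u v, ?_⟩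
  intro h
  obtain ⟨⟨h1, h2, h3, h4, h5, h6⟩, hcr⟩ := (crosses_iff gq _ _ _ _).mp h
  have k1 : x ≠ y := fun e => h1 (congrArg f e)
  have k2 : x ≠ u := fun e => h2 (congrArg f e)
  have k3 : x ≠ v := fun e => h3 (congrArg f e)
  have k4 : y ≠ u := fun e => h4 (congrArg f e)
  have k5 : y ≠ v := fun e => h5 (congrArg f e)
  have k6 : u ≠ v := fun e => h6 (congrArg f e)
  exact (crosses_iff gp x y u v).mpr ⟨⟨k1, k2, k3, k4, k5, k6⟩,
    hback x y u v k1 k2 k3 k4 k5 k6 hcr⟩

end Pool.Agent.Results.MP_1038e0_co.HullStrict
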